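import Pool.Agent.H70.PW.Targets

/-!
Module SYP: symmetrization.
-/

set_option autoImplicit false

namespace Pool.Agent.H65.PW.SYP

open Finset Pool.Agent.H6.NB Pool.Agent.H70.OQ Pool.Agent.H70.PW

theorem ic_and (p q : Prop) [Decidable q] : ic (p ∧ q) = ic p * (if q then 1 else 0) := by
  unfold ic
  by_cases hp : p <;> by_cases hq : q <;> simp [hp, hq]

/-- the number of sets of size `i` between `J` and `R` -/
theorem count {X : Type} [DecidableEq X] (R J : Finset X) (hJ : J ⊆ R) (i : ℕ) :
    ((powersetCard i R).filter (fun I => J ⊆ I)).card * R.card.descFactorial J.card =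
      R.card.choose i * i.descFactorial J.card := by
  by_cases hji : J.card ≤ i
  · have h1 : ((powersetCard i R).filter (fun I => J ⊆ I)).card =
        (powersetCard (i - J.card) (R \ J)).card := by
      refine Finset.card_bij' (fun I _ => I \ J) (fun K _ => K ∪ J) ?_ ?_ ?_ ?_
      · intro I hI
        rw [Finset.mem_filter, Finset.mem_powersetCard] at hI
        rw [Finset.mem_powersetCard]
        exact ⟨Finset.sdiff_subset_sdiff hI.1.1 (Finset.Subset.refl _), by
          rw [Finset.card_sdiff_of_subset hI.2, hI.1.2]⟩
      · intro K hK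
        rw [Finset.mem_powersetCard] at hK
        rw [Finset.mem_filter, Finset.mem_powersetCard]
        have hd : Disjoint K J := Finset.disjoint_of_subset_left hK.1 Finset.sdiff_disjoint
        refine ⟨⟨Finset.union_subset (hK.1.trans Finset.sdiff_subset) hJ, ?_⟩,
          Finset.subset_union_right⟩
        rw [Finset.card_union_of_disjoint hd, hK.2]
        omega
      · intro I hI
        rw [Finset.mem_filter] at hI
        exact Finset.sdiff_union_of_subset hI.2
      · intro K hK
        rw [Finset.mem_powersetCard] at hK
        have hd : Disjoint K J := Finset.disjoint_of_subset_left hK.1 Finset.sdiff_disjoint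
        exact Finset.union_sdiff_cancel_right hd
    rw [h1, Finset.card_powersetCard, Finset.card_sdiff_of_subset hJ,
      Nat.descFactorial_eq_factorial_mul_choose, Nat.descFactorial_eq_factorial_mul_choose]
    have h2 := Nat.choose_mul (n := R.card) hji
    calc (R.card - J.card).choose (i - J.card) * (J.card.factorial * R.card.choose J.card) =
        J.card.factorial * (R.card.choose J.card * (R.card - J.card).choose (i - J.card)) := by
          ring
      _ = J.card.factorial * (R.card.choose i * i.choose J.card) := by rw [h2]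
      _ = _ := by ring
  · have h1 : (powersetCard i R).filter (fun I => J ⊆ I) = ∅ := by
      rw [Finset.filter_eq_empty_iff]
      intro I hI hJI
      rw [Finset.mem_powersetCard] at hI
      have := Finset.card_le_card hJI
      omega
    rw [h1, Finset.card_empty, zero_mul, Nat.descFactorial_of_lt (by omega), mul_zero]

theorem spc_iff {X : Type} [DecidableEq X] (b0 : X → Bool) (R I U : Finset X)
    (hb : ∀ x ∈ R, b0 x = true) (hI : I ⊆ R) :
    (∀ x ∈ U, spc b0 I x = false) ↔ (∀ x ∈ U \ R, b0 x = false) ∧ U ∩ R ⊆ I := by
  constructor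
  · intro h
    refine ⟨fun x hx => ?_, fun x hx => ?_⟩
    · rw [Finset.mem_sdiff] at hx
      have h1 := h x hx.1
      unfold spc at h1
      rwa [if_neg (fun h2 => hx.2 (hI h2))] at h1
    · rw [Finset.mem_inter] at hx
      by_contra h2
      have h1 := h x hx.1
      unfold spc at h1
      rw [if_neg h2, hb x hx.2] at h1
      exact absurd h1 (by simp)
  · rintro ⟨h1, h2⟩ x hx
    unfold spc
    by_cases h3 : x ∈ I
    · rw [if_pos h3]
    · rw [if_neg h3]
      refine h1 x (Finset.mem_sdiff.2 ⟨hx, fun h4 => h3 (h2 (Finset.mem_inter.2 ⟨hx, h4⟩))⟩)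

theorem syp : T_SYP := by
  intro X _ _ D g b0 R hg hb
  obtain ⟨c, hc, hg⟩ := hg
  refine ⟨∑ U : Finset X, Polynomial.C (c U * ic (∀ x ∈ U \ R, b0 x = false) /
    (R.card.descFactorial (U ∩ R).card : ℝ)) * descPochhammer ℝ (U ∩ R).card, ?_, ?_⟩
  · refine Polynomial.natDegree_sum_le_of_forall_le _ _ fun U _ => ?_
    by_cases hU : c U = 0
    · rw [hU, zero_mul, zero_div, Polynomial.C_0, zero_mul, Polynomial.natDegree_zero]
      exact Nat.zero_le _
    · refine (Polynomial.natDegree_C_mul_le _ _).trans ?_
      rw [descPochhammer_natDegree]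
      exact (Finset.card_le_card Finset.inter_subset_left).trans (hc U hU)
  · intro i _
    have h1 : ∑ I ∈ powersetCard i R, g (spc b0 I) =
        ∑ U : Finset X, c U * (ic (∀ x ∈ U \ R, b0 x = false) *
          (((powersetCard i R).filter (fun I => U ∩ R ⊆ I)).card : ℝ)) := by
      have h2 : ∀ I ∈ powersetCard i R, g (spc b0 I) =
          ∑ U : Finset X, c U * (ic (∀ x ∈ U \ R, b0 x = false) *
            (if U ∩ R ⊆ I then 1 else 0)) := by
        intro I hI
        rw [hg]
        refine Finset.sum_congr rfl fun U _ => ?_
        rw [← ic_and]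
        have h3 := spc_iff b0 R I U hb (Finset.mem_powersetCard.1 hI).1
        rw [propext h3]
      rw [Finset.sum_congr rfl h2, Finset.sum_comm]
      refine Finset.sum_congr rfl fun U _ => ?_
      rw [← Finset.mul_sum, ← Finset.mul_sum, Finset.sum_boole]
    rw [h1, Polynomial.eval_finsetSum, Finset.mul_sum]
    refine Finset.sum_congr rfl fun U _ => ?_
    rw [Polynomial.eval_mul, Polynomial.eval_C, descPochhammer_eval_eq_descFactorial]
    have h4 := count R (U ∩ R) Finset.inter_subset_right i
    have h5 : (R.card.descFactorial (U ∩ R).card : ℝ) ≠ 0 := by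
      have h6 : R.card.descFactorial (U ∩ R).card ≠ 0 := by
        rw [Ne, Nat.descFactorial_eq_zero_iff_lt, not_lt]
        exact Finset.card_le_card Finset.inter_subset_right
      exact_mod_cast h6
    have h7 : ((((powersetCard i R).filter (fun I => U ∩ R ⊆ I)).card : ℝ)) *
        (R.card.descFactorial (U ∩ R).card : ℝ) =
        (R.card.choose i : ℝ) * (i.descFactorial (U ∩ R).card : ℝ) := by
      exact_mod_cast h4
    field_simp
    linear_combination (c U * ic (∀ x ∈ U \ R, b0 x = false)) * h7

end Pool.Agent.H65.PW.SYP
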